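import Mathlib

/-!
Right-ordered groups in which every element has a central power are abelian.
-/

set_option autoImplicit false

namespace Pool.Agent.RO27

section order

variable {G : Type*} [Group G] [LinearOrder G] (ho : ∀ a b c : G, a < b → a * c < b * c)

include ho

theorem le_right {a b : G} (c : G) (h : a ≤ b) : a * c ≤ b * c := by
  rcases h.lt_or_eq with h | h
  · exact (ho a b c h).le
  · rw [h]

theorem one_lt_pow' {g : G} (h : 1 < g) (n : ℕ) (hn : n ≠ 0) : 1 < g ^ n := by
  induction n with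
  | zero => exact absurd rfl hn
  | succ n ih =>
    rcases Nat.eq_zero_or_pos n with h0 | h0
    · subst h0; simpa using h
    · have h1 := ih (by omega)
      have h2 := ho 1 g (g ^ n) h
      rw [one_mul, ← pow_succ'] at h2
      exact h1.trans h2

theorem pow_lt_one' {g : G} (h : g < 1) (n : ℕ) (hn : n ≠ 0) : g ^ n < 1 := by
  induction n with
  | zero => exact absurd rfl hn
  | succ n ih =>
    rcases Nat.eq_zero_or_pos n with h0 | h0
    · subst h0; simpa using h
    · have h1 := ih (by omega)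
      have h2 := ho g 1 (g ^ n) h
      rw [one_mul, ← pow_succ'] at h2
      exact h2.trans h1

theorem eq_one_of_pow {g : G} (n : ℕ) (hn : n ≠ 0) (h : g ^ n = 1) : g = 1 := by
  rcases lt_trichotomy g 1 with h1 | h1 | h1
  · exact absurd (pow_lt_one' ho h1 n hn) (by rw [h]; exact lt_irrefl _)
  · exact h1
  · exact absurd (one_lt_pow' ho h1 n hn) (by rw [h]; exact lt_irrefl _)

theorem eq_one_of_zpow {g : G} (n : ℤ) (hn : n ≠ 0) (h : g ^ n = 1) : g = 1 := by
  have h1 : g ^ n.natAbs = 1 := by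
    rcases Int.natAbs_eq n with h2 | h2
    · rw [h2, zpow_natCast] at h; exact h
    · rw [h2, zpow_neg, zpow_natCast, inv_eq_one] at h; exact h
  exact eq_one_of_pow ho n.natAbs (by omega) h1

theorem one_lt_of_pow' {g : G} (n : ℕ) (h : 1 < g ^ n) : 1 < g := by
  have hn : n ≠ 0 := by
    rintro rfl
    rw [pow_zero] at h
    exact lt_irrefl _ h
  rcases lt_trichotomy g 1 with h1 | h1 | h1
  · exact absurd h (lt_asymm (pow_lt_one' ho h1 n hn))
  · rw [h1, one_pow] at h
    exact absurd h (lt_irrefl _)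
  · exact h1

variable (hZ : ∀ g : G, ∃ n : ℕ, n ≠ 0 ∧ g ^ n ∈ Subgroup.center G)

include hZ

theorem conj_pos {g : G} (h : G) (hg : 1 < g) : 1 < h * g * h⁻¹ := by
  obtain ⟨n, hn, hc⟩ := hZ g
  apply one_lt_of_pow' ho n
  rw [conj_pow, Subgroup.mem_center_iff.1 hc h, mul_inv_cancel_right]
  exact one_lt_pow' ho hg n hn

theorem lt_left {a b : G} (c : G) (h : a < b) : c * a < c * b := by
  have h1 := ho a b a⁻¹ h
  rw [mul_inv_cancel] at h1
  have h2 := ho _ _ (c * a) (conj_pos ho hZ c h1)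
  rw [one_mul] at h2
  calc c * a < c * (b * a⁻¹) * c⁻¹ * (c * a) := h2
    _ = c * b := by group

theorem le_left {a b : G} (c : G) (h : a ≤ b) : c * a ≤ c * b := by
  rcases h.lt_or_eq with h | h
  · exact (lt_left ho hZ c h).le
  · rw [h]

theorem mul_le' {a b c d : G} (h : a ≤ b) (h' : c ≤ d) : a * c ≤ b * d :=
  (le_right ho c h).trans (le_left ho hZ b h')

theorem pow_lt' {a b : G} (h : a < b) (n : ℕ) (hn : n ≠ 0) : a ^ n < b ^ n := by
  induction n with
  | zero => exact absurd rfl hn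
  | succ n ih =>
    rcases Nat.eq_zero_or_pos n with h0 | h0
    · subst h0; simpa using h
    · have h1 := ih (by omega)
      rw [pow_succ, pow_succ]
      exact (ho _ _ a h1).trans (lt_left ho hZ _ h)

theorem l1 {g h : G} (hgh : g * h ≤ h * g) (n : ℕ) : g * h ^ n ≤ h ^ n * g := by
  induction n with
  | zero => simp
  | succ n ih =>
    calc g * h ^ (n + 1) = g * h ^ n * h := by rw [pow_succ, mul_assoc]
      _ ≤ h ^ n * g * h := le_right ho h ih
      _ = h ^ n * (g * h) := mul_assoc _ _ _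
      _ ≤ h ^ n * (h * g) := le_left ho hZ _ hgh
      _ = h ^ (n + 1) * g := by rw [pow_succ, mul_assoc]

theorem l2 {g h : G} (hgh : g * h ≤ h * g) (n : ℕ) : g ^ n * h ≤ h * g ^ n := by
  induction n with
  | zero => simp
  | succ n ih =>
    calc g ^ (n + 1) * h = g ^ n * (g * h) := by rw [pow_succ, mul_assoc]
      _ ≤ g ^ n * (h * g) := le_left ho hZ _ hgh
      _ = g ^ n * h * g := (mul_assoc _ _ _).symm
      _ ≤ h * g ^ n * g := le_right ho g ih
      _ = h * g ^ (n + 1) := by rw [pow_succ, mul_assoc]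

theorem l3 {g h : G} (hgh : g * h ≤ h * g) (n : ℕ) : g ^ n * h ^ n ≤ (g * h) ^ n := by
  induction n with
  | zero => simp
  | succ n ih =>
    calc g ^ (n + 1) * h ^ (n + 1) = g ^ n * (g * h ^ n) * h := by
          rw [pow_succ, pow_succ]; group
      _ ≤ g ^ n * (h ^ n * g) * h := le_right ho h (le_left ho hZ _ (l1 ho hZ hgh n))
      _ = g ^ n * h ^ n * (g * h) := by group
      _ ≤ (g * h) ^ n * (g * h) := le_right ho _ ih
      _ = (g * h) ^ (n + 1) := (pow_succ _ _).symm

theorem l4 {g h : G} (hgh : g * h ≤ h * g) (n : ℕ) : (h * g) ^ n ≤ h ^ n * g ^ n := by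
  induction n with
  | zero => simp
  | succ n ih =>
    calc (h * g) ^ (n + 1) = (h * g) ^ n * (h * g) := pow_succ _ _
      _ ≤ h ^ n * g ^ n * (h * g) := le_right ho _ ih
      _ = h ^ n * (g ^ n * h) * g := by group
      _ ≤ h ^ n * (h * g ^ n) * g := le_right ho g (le_left ho hZ _ (l2 ho hZ hgh n))
      _ = h ^ (n + 1) * g ^ (n + 1) := by rw [pow_succ, pow_succ]; group

theorem not_lt_comm (g h : G) : ¬ g * h < h * g := by
  intro hgh
  obtain ⟨n, hn, hc⟩ := hZ g
  obtain ⟨m, hm, hd⟩ := hZ h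
  have hnm : n * m ≠ 0 := Nat.mul_ne_zero hn hm
  have h1 := l3 ho hZ hgh.le (n * m)
  have h2 := l4 ho hZ hgh.le (n * m)
  have h3 := pow_lt' ho hZ hgh (n * m) hnm
  have h4 : g ^ (n * m) ∈ Subgroup.center G := by
    rw [pow_mul]; exact Subgroup.pow_mem _ hc m
  have h5 : h ^ (n * m) * g ^ (n * m) = g ^ (n * m) * h ^ (n * m) :=
    Subgroup.mem_center_iff.1 h4 _
  rw [h5] at h2
  exact lt_irrefl _ ((h1.trans_lt h3).trans_le h2)

/-- right-ordered groups with central powers are abelian -/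
theorem comm_of_central (g h : G) : g * h = h * g := by
  rcases lt_trichotomy (g * h) (h * g) with h1 | h1 | h1
  · exact absurd h1 (not_lt_comm ho hZ g h)
  · exact h1
  · exact absurd h1 (not_lt_comm ho hZ h g)

end order

section main

variable {G : Type*} [Group G] [LinearOrder G] (ho : ∀ a b c : G, a < b → a * c < b * c)
  (hc : ∀ H : Subgroup G, H ≠ ⊤ → IsCyclic H)

include ho hc

/-- a non-trivial proper normal subgroup forces `G` to be abelian -/
theorem comm_of_normal (N : Subgroup G) [N.Normal] (h0 : N ≠ ⊥) (h1 : N ≠ ⊤) :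
    ∀ g h : G, g * h = h * g := by
  by_contra hab
  obtain ⟨a, ha⟩ := (hc N h1).exists_generator
  have ha1 : (a : G) ≠ 1 := by
    intro h
    apply h0
    rw [eq_bot_iff]
    intro x hx
    obtain ⟨k, hk⟩ := ha ⟨x, hx⟩
    have h2 : ((a ^ k : N) : G) = x := congrArg Subtype.val hk
    rw [Subgroup.coe_zpow, h, one_zpow] at h2
    exact h2.symm
  have hgen : ∀ x ∈ N, ∃ k : ℤ, (a : G) ^ k = x := by
    intro x hx
    obtain ⟨k, hk⟩ := ha ⟨x, hx⟩
    exact ⟨k, by have h2 : ((a ^ k : N) : G) = x := congrArg Subtype.val hk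
                 rwa [Subgroup.coe_zpow] at h2⟩
  have hinj : ∀ k l : ℤ, (a : G) ^ k = (a : G) ^ l → k = l := by
    intro k l h
    by_contra hkl
    have h2 : (a : G) ^ (k - l) = 1 := by rw [zpow_sub, h, mul_inv_cancel]
    exact ha1 (eq_one_of_zpow ho (k - l) (sub_ne_zero.2 hkl) h2)
  -- the conjugation
  have hconj : ∀ g : G, ∃ k : ℤ, (k = 1 ∨ k = -1) ∧ g * a * g⁻¹ = (a : G) ^ k := by
    intro g
    obtain ⟨k, hk⟩ := hgen _ (Subgroup.Normal.conj_mem inferInstance (a : G) a.2 g)
    obtain ⟨l, hl⟩ := hgen _ (Subgroup.Normal.conj_mem inferInstance (a : G) a.2 g⁻¹)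
    refine ⟨k, ?_, hk.symm⟩
    have h2 : (a : G) ^ (k * l) = (a : G) ^ (1 : ℤ) := by
      rw [zpow_mul, hk, conj_zpow, hl, zpow_one]; group
    have h3 := hinj _ _ h2
    exact Int.eq_one_or_neg_one_of_mul_eq_one h3
  -- every element has a power in `N`
  have hpow : ∀ g : G, g ≠ 1 → Commute g a ∧ ∃ n : ℕ, n ≠ 0 ∧ ∃ i : ℤ, g ^ n = (a : G) ^ i := by
    intro g hg
    obtain ⟨k, hk, hk'⟩ := hconj g
    have hk2 : Commute (g ^ 2) (a : G) := by
      have h2 : g ^ 2 * a * (g ^ 2)⁻¹ = (a : G) := by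
        have h3 : g ^ 2 * a * (g ^ 2)⁻¹ = g * (g * a * g⁻¹) * g⁻¹ := by
          rw [sq]; group
        rw [h3, hk', ← conj_zpow, hk', ← zpow_mul]
        rcases hk with rfl | rfl <;> simp
      show g ^ 2 * a = a * g ^ 2
      nth_rewrite 2 [← h2]
      group
    have hne : Subgroup.closure {g ^ 2, (a : G)} ≠ ⊤ := by
      intro htop
      apply hab
      have c1 : Subgroup.closure {g ^ 2, (a : G)} ≤ Subgroup.centralizer {g ^ 2} := by
        rw [Subgroup.closure_le]
        rintro x (rfl | rfl)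
        · rw [SetLike.mem_coe, Subgroup.mem_centralizer_singleton_iff]
        · rw [SetLike.mem_coe, Subgroup.mem_centralizer_singleton_iff]
          exact hk2.eq.symm
      have c2 : Subgroup.closure {g ^ 2, (a : G)} ≤ Subgroup.centralizer {(a : G)} := by
        rw [Subgroup.closure_le]
        rintro x (rfl | rfl)
        · rw [SetLike.mem_coe, Subgroup.mem_centralizer_singleton_iff]
          exact hk2.eq
        · rw [SetLike.mem_coe, Subgroup.mem_centralizer_singleton_iff]
      rw [htop] at c1 c2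
      have c3 : Subgroup.closure {g ^ 2, (a : G)} ≤ Subgroup.center G := by
        rw [Subgroup.closure_le]
        rintro x (rfl | rfl)
        · rw [SetLike.mem_coe, Subgroup.mem_center_iff]
          intro y
          exact Subgroup.mem_centralizer_singleton_iff.1 (c1 (Subgroup.mem_top y))
        · rw [SetLike.mem_coe, Subgroup.mem_center_iff]
          intro y
          exact Subgroup.mem_centralizer_singleton_iff.1 (c2 (Subgroup.mem_top y))
      rw [htop] at c3
      intro x y
      exact Subgroup.mem_center_iff.1 (c3 (Subgroup.mem_top y)) x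
    obtain ⟨c, hcg⟩ := (hc _ hne).exists_generator
    obtain ⟨i, hi⟩ := hcg ⟨g ^ 2, Subgroup.subset_closure (by simp)⟩
    obtain ⟨j, hj⟩ := hcg ⟨(a : G), Subgroup.subset_closure (by simp)⟩
    have hi' : (c : G) ^ i = g ^ 2 := by
      have := congrArg Subtype.val hi
      simpa using this
    have hj' : (c : G) ^ j = (a : G) := by
      have := congrArg Subtype.val hj
      simpa using this
    have hj0 : j ≠ 0 := by
      rintro rfl
      rw [zpow_zero] at hj'
      exact ha1 hj'.symm
    have hi0 : i ≠ 0 := by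
      rintro rfl
      rw [zpow_zero] at hi'
      exact hg (eq_one_of_pow ho 2 (by norm_num) hi'.symm)
    have hrel : (g ^ 2) ^ j = (a : G) ^ i := by
      calc (g ^ 2) ^ j = ((c : G) ^ i) ^ j := by rw [hi']
        _ = ((c : G) ^ j) ^ i := by rw [← zpow_mul, ← zpow_mul, mul_comm]
        _ = (a : G) ^ i := by rw [hj']
    have hk1 : k = 1 := by
      have h2 : g * (a : G) ^ i * g⁻¹ = (a : G) ^ i := by
        rw [← hrel]
        have : Commute g ((g ^ 2) ^ j) := ((Commute.refl g).pow_right 2).zpow_right j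
        rw [this.eq, mul_inv_cancel_right]
      rw [← conj_zpow, hk', ← zpow_mul] at h2
      have h3 := hinj _ _ h2
      rcases hk with h4 | h4
      · exact h4
      · exfalso
        rw [h4] at h3
        omega
    refine ⟨?_, 2 * j.natAbs, by omega, ?_⟩
    · rw [hk1, zpow_one] at hk'
      exact mul_inv_eq_iff_eq_mul.1 hk'
    · rcases Int.natAbs_eq j with h2 | h2
      · refine ⟨i, ?_⟩
        rw [pow_mul, ← zpow_natCast, ← h2, hrel]
      · refine ⟨-i, ?_⟩
        have h3 : ((j.natAbs : ℕ) : ℤ) = -j := by omega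
        rw [pow_mul, ← zpow_natCast, h3, zpow_neg, hrel, zpow_neg]
  have hac : (a : G) ∈ Subgroup.center G := by
    rw [Subgroup.mem_center_iff]
    intro g
    by_cases hg : g = 1
    · rw [hg, one_mul, mul_one]
    · exact (hpow g hg).1.eq
  have hZ : ∀ g : G, ∃ n : ℕ, n ≠ 0 ∧ g ^ n ∈ Subgroup.center G := by
    intro g
    by_cases hg : g = 1
    · exact ⟨1, one_ne_zero, by rw [hg, one_pow]; exact Subgroup.one_mem _⟩
    · obtain ⟨-, n, hn, i, hi⟩ := hpow g hg
      exact ⟨n, hn, by rw [hi]; exact Subgroup.zpow_mem _ hac i⟩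
  exact hab fun g h => comm_of_central ho hZ g h

/-- abelian ones are cyclic -/
theorem cyclic_of_comm (hab : ∀ g h : G, g * h = h * g) : IsCyclic G := by
  by_contra hnc
  -- roots
  have hroot : ∀ n : ℕ, n ≠ 0 → ∀ x : G, ∃ y : G, y ^ n = x := by
    intro n hn
    let f : G →* G :=
      { toFun := fun x => x ^ n
        map_one' := one_pow n
        map_mul' := fun x y => (show Commute x y from hab x y).mul_pow n }
    have hf : Function.Injective f := by
      rw [injective_iff_map_eq_one]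
      intro x hx
      exact eq_one_of_pow ho n hn hx
    have htop : f.range = ⊤ := by
      by_contra hne
      have := hc _ hne
      apply hnc
      exact isCyclic_of_injective f.rangeRestrict (fun x y h => hf (congrArg Subtype.val h))
    intro x
    have : x ∈ f.range := by rw [htop]; trivial
    obtain ⟨y, hy⟩ := this
    exact ⟨y, hy⟩
  have hnt : ∃ g : G, g ≠ 1 := by
    by_contra h
    push Not at h
    apply hnc
    exact ⟨1, fun x => ⟨0, by rw [h x]; simp⟩⟩
  obtain ⟨g, hg⟩ := hnt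
  let H : Subgroup G :=
    { carrier := {x | ∃ k : ℕ, ∃ m : ℤ, x ^ (2 ^ k) = g ^ m}
      one_mem' := ⟨0, 0, by simp⟩
      mul_mem' := by
        rintro x y ⟨k, m, h1⟩ ⟨l, r, h2⟩
        refine ⟨k + l, m * 2 ^ l + r * 2 ^ k, ?_⟩
        rw [(show Commute x y from hab x y).mul_pow, zpow_add, pow_add, pow_mul, h1, mul_comm (2 ^ k),
          pow_mul, h2, ← zpow_natCast, ← zpow_mul, ← zpow_natCast, ← zpow_mul]
        push_cast
        rfl
      inv_mem' := by
        rintro x ⟨k, m, h1⟩
        exact ⟨k, -m, by rw [inv_pow, h1, zpow_neg]⟩ }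
  have hgH : g ∈ H := ⟨0, 1, by simp⟩
  have hHne : H ≠ ⊤ := by
    intro htop
    obtain ⟨y, hy⟩ := hroot 3 (by norm_num) g
    have : y ∈ H := by rw [htop]; trivial
    obtain ⟨k, m, h1⟩ := this
    have h2 : g ^ ((2 : ℤ) ^ k - 3 * m) = 1 := by
      have h3 : g ^ ((2 : ℤ) ^ k) = g ^ (3 * m) := by
        have e1 : g ^ ((2 : ℤ) ^ k) = (y ^ 3) ^ (2 ^ k) := by
          rw [hy, ← zpow_natCast]; push_cast; rfl
        have e2 : g ^ (3 * m) = (y ^ (2 ^ k)) ^ 3 := by
          rw [h1, mul_comm, zpow_mul]; norm_cast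
        rw [e1, e2, ← pow_mul, ← pow_mul, mul_comm]
      rw [zpow_sub, h3, mul_inv_cancel]
    apply hg
    refine eq_one_of_zpow ho _ ?_ h2
    intro h3
    have h4 : (3 : ℤ) ∣ 2 ^ k := ⟨m, by linarith⟩
    have h5 : (3 : ℤ) ∣ 2 := Int.Prime.dvd_pow' Nat.prime_three h4
    omega
  obtain ⟨c, hcg⟩ := (hc H hHne).exists_generator
  obtain ⟨d, hd⟩ := hroot 2 (by norm_num) (c : G)
  have hdH : d ∈ H := by
    obtain ⟨k, m, h1⟩ := c.2
    exact ⟨k + 1, m, by rw [pow_succ, mul_comm, pow_mul, hd, h1]⟩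
  obtain ⟨m, hm⟩ := hcg ⟨d, hdH⟩
  have hm' : (c : G) ^ m = d := by
    have := congrArg Subtype.val hm
    simpa using this
  have h1 : (c : G) ^ (2 * m - 1) = 1 := by
    rw [zpow_sub, zpow_one, mul_comm 2 m, zpow_mul, hm']
    have : d ^ (2 : ℤ) = d ^ 2 := by norm_cast
    rw [this, hd, mul_inv_cancel]
  have h2 : (c : G) = 1 := eq_one_of_zpow ho _ (by omega) h1
  obtain ⟨r, hr⟩ := hcg ⟨g, hgH⟩
  have hr' : (c : G) ^ r = g := by
    have := congrArg Subtype.val hr
    simpa using this
  rw [h2, one_zpow] at hr'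
  exact hg hr'.symm

theorem main : IsCyclic G ∨ (IsSimpleGroup G ∧ ∃ a b : G, a * b ≠ b * a) := by
  by_cases hab : ∀ g h : G, g * h = h * g
  · exact Or.inl (cyclic_of_comm ho hc hab)
  · right
    push Not at hab
    obtain ⟨a, b, h⟩ := hab
    have hnt : Nontrivial G := ⟨a, 1, fun h1 => h (by rw [h1, one_mul, mul_one])⟩
    refine ⟨⟨fun N hN => ?_⟩, a, b, h⟩
    by_contra hcon
    push Not at hcon
    exact h (comm_of_normal ho hc N hcon.1 hcon.2 a b)

end main

end Pool.Agent.RO27
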